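import Mathlib

/-!
# Rainbow-free weakly rainbow saturated graphs: a counterexample for every `n ≥ 3`

Let `H` be `K_n` minus one edge.  A rainbow copy of `H` is weakly `H`-rainbow saturated in `K_n`,
so `rwsat(n, H) = C(n, 2) - 1`.  A weakly `H`-rainbow saturated graph without a rainbow `H`,
however, must be `K_n` itself: `rwsat*(n, H) = C(n, 2)`.
-/

namespace Pool.Agent.Results.MP_e47ea7_co.MissingEdge

/-- `φ` embeds `H` as a rainbow subgraph of the graph `G` with colours `col`. -/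
def RainbowCopy {k n : ℕ} (H : SimpleGraph (Fin k)) (G : SimpleGraph (Fin n))
    (col : Sym2 (Fin n) → ℕ) (φ : Fin k → Fin n) : Prop :=
  Function.Injective φ ∧ (∀ x y, H.Adj x y → G.Adj (φ x) (φ y)) ∧
    Set.InjOn (fun g => col (g.map φ)) H.edgeSet

/-- The graph `G + e_0 + ... + e_i`. -/
def stage {n m : ℕ} (G : SimpleGraph (Fin n)) (e : Fin m → Sym2 (Fin n)) (i : Fin m) :
    SimpleGraph (Fin n) :=
  G ⊔ SimpleGraph.fromEdgeSet {g | ∃ j ≤ i, e j = g}

/-- The colours of the pairs: the pair `e j` has colour `c j`, every other pair (in particular each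
edge of the initial graph) keeps its colour under `χ`. -/
noncomputable def colour {n m : ℕ} (χ : Sym2 (Fin n) → ℕ) (e : Fin m → Sym2 (Fin n))
    (c : Fin m → ℕ) : Sym2 (Fin n) → ℕ :=
  Function.extend e c χ

/-- The coloured graph `(G, χ)` is weakly `H`-rainbow saturated in `K_n`: there is an ordering
`e` of the missing edges such that for all lists `c` of pairwise distinct colours each added edge
`e i` lies in a rainbow copy of `H` in the coloured graph `G + e_0 + ... + e_i`. -/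
def WeaklySat {k n : ℕ} (H : SimpleGraph (Fin k)) (G : SimpleGraph (Fin n))
    (χ : Sym2 (Fin n) → ℕ) : Prop :=
  ∃ (m : ℕ) (e : Fin m → Sym2 (Fin n)), Function.Injective e ∧ Set.range e = Gᶜ.edgeSet ∧
    ∀ c : Fin m → ℕ, Function.Injective c → ∀ i : Fin m,
      ∃ φ : Fin k → Fin n, RainbowCopy H (stage G e i) (colour χ e c) φ ∧
        ∃ g ∈ H.edgeSet, g.map φ = e i

/-- The coloured graph `(G, χ)` contains no rainbow copy of `H`. -/
def RainbowFree {k n : ℕ} (H : SimpleGraph (Fin k)) (G : SimpleGraph (Fin n))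
    (χ : Sym2 (Fin n) → ℕ) : Prop :=
  ¬ ∃ φ : Fin k → Fin n, RainbowCopy H G χ φ

/-- The weak rainbow saturation number `rwsat(n, H)`. -/
noncomputable def rwsat {k : ℕ} (n : ℕ) (H : SimpleGraph (Fin k)) : ℕ∞ :=
  sInf {q | ∃ (G : SimpleGraph (Fin n)) (χ : Sym2 (Fin n) → ℕ),
    WeaklySat H G χ ∧ q = (G.edgeSet.ncard : ℕ∞)}

/-- The number `rwsat*(n, H)`: the minimum over the rainbow `H`-free graphs only (`⊤` if there are
none). -/
noncomputable def rwsatStar {k : ℕ} (n : ℕ) (H : SimpleGraph (Fin k)) : ℕ∞ :=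
  sInf {q | ∃ (G : SimpleGraph (Fin n)) (χ : Sym2 (Fin n) → ℕ),
    WeaklySat H G χ ∧ RainbowFree H G χ ∧ q = (G.edgeSet.ncard : ℕ∞)}

/-- The complete graph on `N + 3` vertices without the edge `01`. -/
def Hminus (N : ℕ) : SimpleGraph (Fin (N + 3)) where
  Adj x y := x ≠ y ∧ s(x, y) ≠ s(0, 1)
  symm := ⟨fun x y h => ⟨h.1.symm, by rw [Sym2.eq_swap]; exact h.2⟩⟩
  loopless := ⟨fun x h => h.1 rfl⟩

variable {N : ℕ}

lemma mem_H (g : Sym2 (Fin (N + 3))) : g ∈ (Hminus N).edgeSet ↔ ¬ g.IsDiag ∧ g ≠ s(0, 1) := by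
  induction g using Sym2.ind with
  | h x y => rw [SimpleGraph.mem_edgeSet]; simp [Hminus]

lemma zero_ne_one' : (0 : Fin (N + 3)) ≠ 1 := by
  intro h
  have := congrArg Fin.val h
  simp at this

/-- A permutation with prescribed images of `0` and `1`. -/
lemma exists_perm (u v : Fin (N + 3)) (huv : u ≠ v) :
    ∃ φ : Equiv.Perm (Fin (N + 3)), φ 0 = u ∧ φ 1 = v := by
  set w := Equiv.swap 0 u v with hw
  have hw0 : w ≠ 0 := by
    intro h
    have : Equiv.swap 0 u v = Equiv.swap 0 u u := by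
      rw [Equiv.swap_apply_right]; exact h
    exact huv ((Equiv.swap 0 u).injective this).symm
  refine ⟨Equiv.swap 0 u * Equiv.swap 1 w, ?_, ?_⟩
  · rw [Equiv.Perm.mul_apply, Equiv.swap_apply_of_ne_of_ne zero_ne_one' hw0.symm,
      Equiv.swap_apply_left]
  · rw [Equiv.Perm.mul_apply, Equiv.swap_apply_left, hw, Equiv.swap_apply_self]

/-- If all pairs except possibly `s(u, v)` are edges, with distinct colours, there is a rainbow
copy of `Hminus`, covering exactly these pairs. -/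
lemma copy_of (G : SimpleGraph (Fin (N + 3))) (col : Sym2 (Fin (N + 3)) → ℕ) (g₀ : Sym2 (Fin (N + 3)))
    (hg₀ : ¬ g₀.IsDiag) (hG : ∀ g : Sym2 (Fin (N + 3)), ¬ g.IsDiag → g ≠ g₀ → g ∈ G.edgeSet)
    (hcol : ∀ g g' : Sym2 (Fin (N + 3)), ¬ g.IsDiag → ¬ g'.IsDiag → g ≠ g₀ → g' ≠ g₀ →
      col g = col g' → g = g') :
    ∃ φ : Fin (N + 3) → Fin (N + 3), RainbowCopy (Hminus N) G col φ ∧
      ∀ g : Sym2 (Fin (N + 3)), ¬ g.IsDiag → g ≠ g₀ → ∃ h ∈ (Hminus N).edgeSet, h.map φ = g := by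
  induction g₀ using Sym2.ind with
  | h u v =>
    have huv : u ≠ v := by simpa using hg₀
    obtain ⟨φ, h0, h1⟩ := exists_perm u v huv
    have hmap : (s(0, 1) : Sym2 (Fin (N + 3))).map φ = s(u, v) := by simp [h0, h1]
    have hinj : Function.Injective (Sym2.map φ) := Sym2.map.injective φ.injective
    have hdiag : ∀ g : Sym2 (Fin (N + 3)), (g.map φ).IsDiag ↔ g.IsDiag := by
      intro g
      induction g using Sym2.ind with
      | h x y => simp
    refine ⟨φ, ⟨φ.injective, ?_, ?_⟩, ?_⟩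
    · intro x y hxy
      rw [← SimpleGraph.mem_edgeSet]
      apply hG
      · simpa using hxy.1
      · intro h
        apply hxy.2
        apply hinj
        rw [hmap, ← h]; simp
    · intro g hg g' hg' h
      rw [mem_H] at hg hg'
      apply hinj
      refine hcol _ _ (by rw [hdiag]; exact hg.1) (by rw [hdiag]; exact hg'.1) ?_ ?_ h
      · intro h'; exact hg.2 (hinj (h'.trans hmap.symm))
      · intro h'; exact hg'.2 (hinj (h'.trans hmap.symm))
    · intro g hg hg'
      refine ⟨g.map φ.symm, ?_, ?_⟩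
      · have hgg : (g.map φ.symm).map φ = g := by
          rw [Sym2.map_map]; simp
        rw [mem_H]
        refine ⟨?_, ?_⟩
        · rw [← hdiag, hgg]; exact hg
        · intro h
          rw [h, hmap] at hgg
          exact hg' hgg.symm
      · rw [Sym2.map_map]; simp

lemma finite_sym (s : Set (Sym2 (Fin (N + 3)))) : s.Finite := Set.toFinite s

lemma card_top : (⊤ : SimpleGraph (Fin (N + 3))).edgeSet.ncard = (N + 3).choose 2 := by
  rw [← SimpleGraph.coe_edgeFinset, Set.ncard_coe_finset,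
    SimpleGraph.card_edgeFinset_top_eq_card_choose_two, Fintype.card_fin]

lemma mem_top (g : Sym2 (Fin (N + 3))) :
    g ∈ (⊤ : SimpleGraph (Fin (N + 3))).edgeSet ↔ ¬ g.IsDiag := by
  induction g using Sym2.ind with
  | h x y => simp

lemma edgeSet_H : (Hminus N).edgeSet = (⊤ : SimpleGraph (Fin (N + 3))).edgeSet \ {s(0, 1)} := by
  ext g
  rw [mem_H, Set.mem_sdiff, mem_top]
  simp

lemma card_H : (Hminus N).edgeSet.ncard = (N + 3).choose 2 - 1 := by
  rw [edgeSet_H, Set.ncard_sdiff_singleton_of_mem, card_top]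
  rw [mem_top]
  simpa using zero_ne_one'

/-- A rainbow copy of `Hminus` in a graph covers all pairs but one. -/
lemma covers {G : SimpleGraph (Fin (N + 3))} {col : Sym2 (Fin (N + 3)) → ℕ}
    {φ : Fin (N + 3) → Fin (N + 3)} (hφ : RainbowCopy (Hminus N) G col φ) :
    ∃ g₀ : Sym2 (Fin (N + 3)), ¬ g₀.IsDiag ∧
      ∀ g : Sym2 (Fin (N + 3)), ¬ g.IsDiag → g ≠ g₀ →
        g ∈ G.edgeSet ∧ ∃ h ∈ (Hminus N).edgeSet, h.map φ = g := by
  obtain ⟨hinj, hadj, hcol⟩ := hφ
  have hb : Function.Bijective φ := Finite.injective_iff_bijective.mp hinj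
  refine ⟨s(φ 0, φ 1), ?_, ?_⟩
  · simp only [Sym2.mk_isDiag_iff]
    exact fun h => zero_ne_one' (hinj h)
  · intro g hg hg'
    induction g using Sym2.ind with
    | h u v =>
      obtain ⟨x, rfl⟩ := hb.2 u
      obtain ⟨y, rfl⟩ := hb.2 v
      have hxy : x ≠ y := by
        intro h; apply hg; simp [h]
      have hH : (Hminus N).Adj x y := by
        refine ⟨hxy, fun h => hg' ?_⟩
        have := congrArg (Sym2.map φ) h
        simpa using this
      exact ⟨hadj x y hH, s(x, y), hH, by simp⟩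

lemma same_colour {G : SimpleGraph (Fin (N + 3))} {col : Sym2 (Fin (N + 3)) → ℕ}
    {φ : Fin (N + 3) → Fin (N + 3)} (hφ : RainbowCopy (Hminus N) G col φ)
    {g g' : Sym2 (Fin (N + 3))} (hg : ∃ h ∈ (Hminus N).edgeSet, h.map φ = g)
    (hg' : ∃ h ∈ (Hminus N).edgeSet, h.map φ = g') (h : col g = col g') : g = g' := by
  obtain ⟨h₁, hh₁, rfl⟩ := hg
  obtain ⟨h₂, hh₂, rfl⟩ := hg'
  rw [hφ.2.2 hh₁ hh₂ h]

lemma colour_app {n m : ℕ} {χ : Sym2 (Fin n) → ℕ} {e : Fin m → Sym2 (Fin n)} {c : Fin m → ℕ}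
    (he : Function.Injective e) (i : Fin m) : colour χ e c (e i) = c i :=
  he.extend_apply _ _ _

lemma colour_edge {n m : ℕ} {G : SimpleGraph (Fin n)} {χ : Sym2 (Fin n) → ℕ}
    {e : Fin m → Sym2 (Fin n)} {c : Fin m → ℕ} (hr : Set.range e = Gᶜ.edgeSet)
    {g : Sym2 (Fin n)} (hg : g ∈ G.edgeSet) : colour χ e c g = χ g := by
  refine Function.extend_apply' _ _ _ ?_
  rintro ⟨j, hj⟩
  have : g ∈ Gᶜ.edgeSet := by rw [← hr]; exact ⟨j, hj⟩
  induction g using Sym2.ind with
  | h u v =>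
    rw [SimpleGraph.mem_edgeSet] at hg this
    rw [SimpleGraph.compl_adj] at this
    exact this.2 hg

lemma mem_stage {n m : ℕ} {G : SimpleGraph (Fin n)} {e : Fin m → Sym2 (Fin n)} {i : Fin m}
    {g : Sym2 (Fin n)} (hg : g ∈ (stage G e i).edgeSet) : g ∈ G.edgeSet ∨ ∃ j ≤ i, e j = g := by
  induction g using Sym2.ind with
  | h u v =>
    rw [SimpleGraph.mem_edgeSet] at hg ⊢
    simp only [stage, SimpleGraph.sup_adj, SimpleGraph.fromEdgeSet_adj, Set.mem_ofPred_eq] at hg
    tauto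

/-- At most one edge is missing from a weakly `Hminus`-rainbow saturated graph. -/
lemma few_missing {G : SimpleGraph (Fin (N + 3))} {χ : Sym2 (Fin (N + 3)) → ℕ} {m : ℕ}
    {e : Fin m → Sym2 (Fin (N + 3))} (he : Function.Injective e)
    (hr : Set.range e = Gᶜ.edgeSet)
    (hs : ∀ c : Fin m → ℕ, Function.Injective c → ∀ i : Fin m,
      ∃ φ : Fin (N + 3) → Fin (N + 3), RainbowCopy (Hminus N) (stage G e i) (colour χ e c) φ ∧
        ∃ g ∈ (Hminus N).edgeSet, g.map φ = e i) : m ≤ 1 := by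
  by_contra hm
  push Not at hm
  set i0 : Fin m := ⟨0, by omega⟩
  set i1 : Fin m := ⟨1, hm⟩
  have h01 : i0 ≠ i1 := by
    intro h; have := congrArg Fin.val h; simp [i0, i1] at this
  have hnd : ∀ i, ¬ (e i).IsDiag := by
    intro i hd
    have : e i ∈ Gᶜ.edgeSet := by rw [← hr]; exact ⟨i, rfl⟩
    exact SimpleGraph.not_isDiag_of_mem_edgeSet _ this hd
  -- a third pair
  obtain ⟨f, hf, hf0, hf1⟩ : ∃ f : Sym2 (Fin (N + 3)), ¬ f.IsDiag ∧ f ≠ e i0 ∧ f ≠ e i1 := by
    by_contra hcon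
    push Not at hcon
    have hsub : (⊤ : SimpleGraph (Fin (N + 3))).edgeSet ⊆ {e i0, e i1} := by
      intro g hg
      rw [mem_top] at hg
      by_cases h0 : g = e i0
      · simp [h0]
      · simp [hcon g hg h0]
    have hc := Set.ncard_le_ncard hsub (finite_sym _)
    rw [card_top] at hc
    have h2 : ({e i0, e i1} : Set (Sym2 (Fin (N + 3)))).ncard ≤ 2 := by
      refine (Set.ncard_insert_le _ _).trans ?_
      rw [Set.ncard_singleton]
    have h3 : 3 ≤ (N + 3).choose 2 := by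
      have := Nat.choose_le_choose 2 (show 3 ≤ N + 3 by omega)
      simpa using this
    omega
  obtain ⟨φ, hφ, hi⟩ := hs (fun j => χ f + j.val) (by
    intro a b hab
    simp only at hab
    exact Fin.ext (by omega)) i0
  obtain ⟨g₀, hg₀, hcov⟩ := covers hφ
  have h1 : e i1 = g₀ := by
    by_contra h
    rcases mem_stage (hcov _ (hnd i1) h).1 with hG | ⟨j, hj, hje⟩
    · have : e i1 ∈ Gᶜ.edgeSet := by rw [← hr]; exact ⟨i1, rfl⟩
      revert hG this
      generalize e i1 = g
      intro hG hGc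
      induction g using Sym2.ind with
      | h u v =>
        rw [SimpleGraph.mem_edgeSet] at hG hGc
        exact ((SimpleGraph.compl_adj _ _ _).mp hGc).2 hG
    · have := he hje
      rw [this] at hj
      have : i1.val ≤ i0.val := hj
      simp [i0, i1] at this
  have hfc := hcov f hf (by rw [← h1]; exact hf1)
  have hfG : f ∈ G.edgeSet := by
    rcases mem_stage hfc.1 with h | ⟨j, hj, hje⟩
    · exact h
    · exfalso
      have hj0 : j = i0 := by
        apply Fin.ext
        have : j.val ≤ i0.val := hj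
        simp only [i0] at this ⊢
        omega
      rw [hj0] at hje
      exact hf0 hje.symm
  have := same_colour hφ hfc.2 hi (by
    rw [colour_edge hr hfG, colour_app he]
    simp [i0])
  exact hf0 this

lemma card_of_missing {G : SimpleGraph (Fin (N + 3))} {m : ℕ}
    {e : Fin m → Sym2 (Fin (N + 3))} (he : Function.Injective e)
    (hr : Set.range e = Gᶜ.edgeSet) : G.edgeSet.ncard = (N + 3).choose 2 - m ∧
      m ≤ (N + 3).choose 2 := by
  have h1 : (Gᶜ).edgeSet.ncard = m := by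
    rw [← hr, ← Set.image_univ, Set.ncard_image_of_injective _ he, Set.ncard_univ]
    simp
  have h2 : (⊤ : SimpleGraph (Fin (N + 3))).edgeSet = G.edgeSet ∪ (Gᶜ).edgeSet := by
    ext g
    induction g using Sym2.ind with
    | h x y =>
      rw [Set.mem_union, SimpleGraph.mem_edgeSet, SimpleGraph.mem_edgeSet,
        SimpleGraph.mem_edgeSet, SimpleGraph.compl_adj, SimpleGraph.top_adj]
      constructor
      · intro h; by_cases hG : G.Adj x y
        · exact Or.inl hG
        · exact Or.inr ⟨h, hG⟩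
      · rintro (h | h)
        · exact h.ne
        · exact h.1
  have h3 : Disjoint G.edgeSet (Gᶜ).edgeSet := by
    rw [Set.disjoint_left]
    intro g hg hg'
    induction g using Sym2.ind with
    | h x y =>
      rw [SimpleGraph.mem_edgeSet] at hg hg'
      exact ((SimpleGraph.compl_adj _ _ _).mp hg').2 hg
  have h4 := Set.ncard_union_eq h3 (finite_sym _) (finite_sym _)
  rw [← h2, card_top, h1] at h4
  omega

/-- A rainbow `Hminus`-free weakly `Hminus`-rainbow saturated graph is complete. -/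
lemma star_lower {G : SimpleGraph (Fin (N + 3))} {χ : Sym2 (Fin (N + 3)) → ℕ}
    (hs : WeaklySat (Hminus N) G χ) (hf : RainbowFree (Hminus N) G χ) :
    G.edgeSet.ncard = (N + 3).choose 2 := by
  obtain ⟨m, e, he, hr, hs⟩ := hs
  have hm := few_missing he hr hs
  have hc := card_of_missing he hr
  rcases Nat.lt_or_ge m 1 with h0 | h1
  · have : m = 0 := by omega
    rw [this] at hc
    exact hc.1
  · exfalso
    have hm1 : m = 1 := by omega
    subst hm1
    have hnd : ¬ (e 0).IsDiag := by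
      intro hd
      have : e 0 ∈ Gᶜ.edgeSet := by rw [← hr]; exact ⟨0, rfl⟩
      exact SimpleGraph.not_isDiag_of_mem_edgeSet _ this hd
    have hGall : ∀ g : Sym2 (Fin (N + 3)), ¬ g.IsDiag → g ≠ e 0 → g ∈ G.edgeSet := by
      intro g hg hg0
      by_contra hG
      have : g ∈ Gᶜ.edgeSet := by
        induction g using Sym2.ind with
        | h x y =>
          rw [SimpleGraph.mem_edgeSet, SimpleGraph.compl_adj]
          exact ⟨by simpa using hg, by rwa [SimpleGraph.mem_edgeSet] at hG⟩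
      rw [← hr] at this
      obtain ⟨j, hj⟩ := this
      rw [Subsingleton.elim j 0] at hj
      exact hg0 hj.symm
    -- two edges of the same colour
    obtain ⟨g, g', hg, hg', hg0, hg0', hcol, hne⟩ : ∃ g g' : Sym2 (Fin (N + 3)), ¬ g.IsDiag ∧
        ¬ g'.IsDiag ∧ g ≠ e 0 ∧ g' ≠ e 0 ∧ χ g = χ g' ∧ g ≠ g' := by
      by_contra hcon
      apply hf
      obtain ⟨φ, hφ, _⟩ := copy_of G χ (e 0) hnd hGall (by
        intro g g' hg hg' hg0 hg0' hcol
        by_contra hne
        exact hcon ⟨g, g', hg, hg', hg0, hg0', hcol, hne⟩)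
      exact ⟨φ, hφ⟩
    obtain ⟨φ, hφ, hi⟩ := hs (fun _ => χ g) (fun a b _ => Subsingleton.elim a b) 0
    obtain ⟨g₀, _, hcov⟩ := covers hφ
    by_cases h : g = g₀
    · have h' : g' ≠ g₀ := fun h' => hne (h.trans h'.symm)
      refine hg0' (same_colour hφ (hcov g' hg' h').2 hi ?_)
      rw [colour_edge hr (hGall g' hg' hg0'), colour_app he]
      exact hcol.symm
    · refine hg0 (same_colour hφ (hcov g hg h).2 hi ?_)
      rw [colour_edge hr (hGall g hg hg0), colour_app he]

/-- The complete graph, coloured with one colour. -/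
lemma star_upper : WeaklySat (Hminus N) (⊤ : SimpleGraph (Fin (N + 3))) (fun _ => 0) ∧
    RainbowFree (Hminus N) (⊤ : SimpleGraph (Fin (N + 3))) (fun _ => 0) := by
  constructor
  · refine ⟨0, Fin.elim0, fun a => a.elim0, ?_, fun c _ i => i.elim0⟩
    ext g
    induction g using Sym2.ind with
    | h x y => simp [SimpleGraph.compl_adj]
  · rintro ⟨φ, _, _, hcol⟩
    have h3 : 3 ≤ (N + 3).choose 2 := by
      have := Nat.choose_le_choose 2 (show 3 ≤ N + 3 by omega)
      simpa using this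
    have h2 : 1 < (Hminus N).edgeSet.ncard := by rw [card_H]; omega
    obtain ⟨a, ha, b, hb, hab⟩ := (Set.one_lt_ncard (finite_sym _)).mp h2
    exact hab (hcol ha hb rfl)

/-- The rainbow copy of `Hminus` itself is weakly `Hminus`-rainbow saturated. -/
lemma upper (χ : Sym2 (Fin (N + 3)) → ℕ) (hχ : Function.Injective χ) :
    WeaklySat (Hminus N) (Hminus N) χ := by
  have hnd : ¬ (s(0, 1) : Sym2 (Fin (N + 3))).IsDiag := by
    simpa using zero_ne_one'
  have he : Function.Injective (fun _ : Fin 1 => (s(0, 1) : Sym2 (Fin (N + 3)))) :=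
    fun a b _ => Subsingleton.elim a b
  have hr : Set.range (fun _ : Fin 1 => (s(0, 1) : Sym2 (Fin (N + 3)))) =
      (Hminus N)ᶜ.edgeSet := by
    ext g
    constructor
    · rintro ⟨_, rfl⟩
      rw [SimpleGraph.mem_edgeSet, SimpleGraph.compl_adj]
      exact ⟨zero_ne_one', fun h => h.2 rfl⟩
    · intro hg
      induction g using Sym2.ind with
      | h x y =>
        rw [SimpleGraph.mem_edgeSet, SimpleGraph.compl_adj] at hg
        by_contra hcon
        apply hg.2
        refine ⟨hg.1, fun h => hcon ⟨0, h.symm⟩⟩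
  refine ⟨1, fun _ => s(0, 1), he, hr, ?_⟩
  intro c _ i
  rw [Subsingleton.elim i 0]
  -- the edge to be dropped
  obtain ⟨g₀, hg₀, hdrop⟩ : ∃ g₀ : Sym2 (Fin (N + 3)), g₀ ∈ (Hminus N).edgeSet ∧
      ∀ g ∈ (Hminus N).edgeSet, χ g = c 0 → g = g₀ := by
    by_cases h : ∃ g ∈ (Hminus N).edgeSet, χ g = c 0
    · obtain ⟨g₀, hg₀, hc⟩ := h
      exact ⟨g₀, hg₀, fun g _ hgc => hχ (hgc.trans hc.symm)⟩
    · have h3 : 3 ≤ (N + 3).choose 2 := by
        have := Nat.choose_le_choose 2 (show 3 ≤ N + 3 by omega)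
        simpa using this
      have h2 : 1 < (Hminus N).edgeSet.ncard := by rw [card_H]; omega
      obtain ⟨a, ha, b, hb, hab⟩ := (Set.one_lt_ncard (finite_sym _)).mp h2
      exact ⟨a, ha, fun g hg hgc => absurd ⟨g, hg, hgc⟩ h⟩
  have hg₀' := (mem_H g₀).mp hg₀
  have hstage : ∀ g : Sym2 (Fin (N + 3)), ¬ g.IsDiag →
      g ∈ (stage (Hminus N) (fun _ : Fin 1 => s(0, 1)) 0).edgeSet := by
    intro g hg
    induction g using Sym2.ind with
    | h x y =>
      have hxy : x ≠ y := by simpa using hg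
      rw [SimpleGraph.mem_edgeSet]
      by_cases h : s(x, y) = s(0, 1)
      · right
        rw [SimpleGraph.fromEdgeSet_adj]
        exact ⟨⟨0, le_rfl, h.symm⟩, hxy⟩
      · left
        exact ⟨hxy, h⟩
  have hcolH : ∀ g : Sym2 (Fin (N + 3)), ¬ g.IsDiag → g ≠ s(0, 1) →
      colour χ (fun _ : Fin 1 => (s(0, 1) : Sym2 (Fin (N + 3)))) c g = χ g := by
    intro g hg hg'
    exact colour_edge hr ((mem_H g).mpr ⟨hg, hg'⟩)
  have hcol0 : colour χ (fun _ : Fin 1 => (s(0, 1) : Sym2 (Fin (N + 3)))) c s(0, 1) = c 0 :=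
    colour_app he 0
  obtain ⟨φ, hφ, hcov⟩ := copy_of (stage (Hminus N) (fun _ : Fin 1 => s(0, 1)) 0)
    (colour χ (fun _ => s(0, 1)) c) g₀ hg₀'.1 (fun g hg _ => hstage g hg) (by
      intro g g' hg hg' hne hne' hcol
      by_cases h : g = s(0, 1)
      · by_cases h' : g' = s(0, 1)
        · rw [h, h']
        · rw [h, hcol0, hcolH g' hg' h'] at hcol
          exact absurd (hdrop g' ((mem_H g').mpr ⟨hg', h'⟩) hcol.symm) hne'
      · by_cases h' : g' = s(0, 1)
        · rw [h', hcol0, hcolH g hg h] at hcol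
          exact absurd (hdrop g ((mem_H g).mpr ⟨hg, h⟩) hcol) hne
        · rw [hcolH g hg h, hcolH g' hg' h'] at hcol
          exact hχ hcol)
  exact ⟨φ, hφ, hcov s(0, 1) hnd (fun h => hg₀'.2 h.symm)⟩

lemma rwsat_eq (N : ℕ) : rwsat (N + 3) (Hminus N) = (((N + 3).choose 2 - 1 : ℕ) : ℕ∞) := by
  apply le_antisymm
  · obtain ⟨χ, hχ⟩ := exists_injective_nat (Sym2 (Fin (N + 3)))
    refine sInf_le ⟨Hminus N, χ, upper χ hχ, ?_⟩
    rw [card_H]
  · refine le_sInf ?_
    rintro q ⟨G, χ, ⟨m, e, he, hr, hs⟩, rfl⟩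
    have hm := few_missing he hr hs
    have hc := card_of_missing he hr
    rw [hc.1]
    exact_mod_cast Nat.sub_le_sub_left hm _

lemma rwsatStar_eq (N : ℕ) : rwsatStar (N + 3) (Hminus N) = (((N + 3).choose 2 : ℕ) : ℕ∞) := by
  apply le_antisymm
  · refine sInf_le ⟨⊤, fun _ => 0, star_upper.1, star_upper.2, ?_⟩
    rw [card_top]
  · refine le_sInf ?_
    rintro q ⟨G, χ, hs, hf, rfl⟩
    rw [star_lower hs hf]

/-- **Main theorem.**  For every `n ≥ 3` the graph `H = K_n` minus an edge satisfies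
`rwsat(n, H) = C(n, 2) - 1` and `rwsat*(n, H) = C(n, 2)`; so `rwsat* = rwsat` fails. -/
theorem result :
    (∀ N : ℕ, rwsat (N + 3) (Hminus N) = (((N + 3).choose 2 - 1 : ℕ) : ℕ∞) ∧
      rwsatStar (N + 3) (Hminus N) = (((N + 3).choose 2 : ℕ) : ℕ∞) ∧
      rwsat (N + 3) (Hminus N) < rwsatStar (N + 3) (Hminus N)) ∧
    ¬ (∀ (k : ℕ) (H : SimpleGraph (Fin k)), (∃ x y, H.Adj x y) →
      ∀ n : ℕ, 1 ≤ n → rwsatStar n H = rwsat n H) := by
  have key : ∀ N : ℕ, rwsat (N + 3) (Hminus N) = (((N + 3).choose 2 - 1 : ℕ) : ℕ∞) ∧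
      rwsatStar (N + 3) (Hminus N) = (((N + 3).choose 2 : ℕ) : ℕ∞) ∧
      rwsat (N + 3) (Hminus N) < rwsatStar (N + 3) (Hminus N) := by
    intro N
    refine ⟨rwsat_eq N, rwsatStar_eq N, ?_⟩
    rw [rwsat_eq, rwsatStar_eq]
    have h3 : 3 ≤ (N + 3).choose 2 := by
      have := Nat.choose_le_choose 2 (show 3 ≤ N + 3 by omega)
      simpa using this
    exact_mod_cast (by omega : (N + 3).choose 2 - 1 < (N + 3).choose 2)
  refine ⟨key, fun h => ?_⟩
  have h1 := h 3 (Hminus 0) ⟨0, 2, by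
    refine ⟨by decide, by decide⟩⟩ 3 (by norm_num)
  exact absurd h1 (ne_of_gt (key 0).2.2)

end Pool.Agent.Results.MP_e47ea7_co.MissingEdge
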